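import Pool.Agent.Zk36.CO.Defs
import Pool.Agent.W424.NC.Win

/-!
# Long open paths below the critical point
-/

set_option autoImplicit false
set_option linter.all false

namespace Pool.Agent.Zk80.CO

open H974 Finset H342P H984P H984N Pool.Agent.Zk36.CO

/-- a crossing of the annulus with the centre `(X, Y)` -/
def An (w X Y : ℤ) (F : Finset Edg) : Prop :=
  (LRc (X + w) (X + 3 * w) (Y - 3 * w) (Y + 3 * w) F ∨
    LRc (X - 3 * w) (X - w) (Y - 3 * w) (Y + 3 * w) F) ∨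
  (TBc (X - 3 * w) (X + 3 * w) (Y + w) (Y + 3 * w) F ∨
    TBc (X - 3 * w) (X + 3 * w) (Y - 3 * w) (Y - w) F)

theorem an_of_reach {F : Finset Edg} {w X Y : ℤ} (hw : 0 < w) {x y : Vtx}
    (hx1 : X ≤ x.1) (hx2 : x.1 ≤ X + w) (hx3 : Y ≤ x.2) (hx4 : x.2 ≤ Y + w)
    (hd : 4 * w ≤ sd x y) (h : Reach (↑F : Set Edg) x y) : An w X Y F := by
  have hd' : y.1 ≤ X - 3 * w ∨ X + 3 * w ≤ y.1 ∨ y.2 ≤ Y - 3 * w ∨ Y + 3 * w ≤ y.2 := by
    unfold sd at hd
    rcases le_max_iff.1 hd with h1 | h1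
    · rcases le_abs.1 h1 with h2 | h2 <;> omega
    · rcases le_abs.1 h1 with h2 | h2 <;> omega
  obtain ⟨v, k1, k2, k3⟩ := first_exit (a := X - 3 * w) (b := X + 3 * w) (c := Y - 3 * w)
    (d := Y + 3 * w) (by unfold inR; omega) h hd'
  rcases k2 with k2 | k2 | k2 | k2
  · left
    right
    obtain ⟨y1, y2, m1, m2, m3, -⟩ := sub_LR (a := X - 3 * w) (b := X - w) (c := Y - 3 * w)
      (d := Y + 3 * w) (by omega)
      (by rintro x y ⟨-, h⟩ _ _; simp only [mem_coe, mem_RE_true] at h; omega)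
      (by rintro x y ⟨-, h⟩ _ _; simp only [mem_coe, mem_RE_false] at h; omega)
      k3.symm k2.le (by omega)
    exact ⟨y1, y2, m1, m2, m3.mono (by rintro e ⟨⟨h4, -⟩, h5⟩; exact ⟨h4, h5⟩)⟩
  · left
    left
    obtain ⟨y1, y2, m1, m2, m3, -⟩ := sub_LR (a := X + w) (b := X + 3 * w) (c := Y - 3 * w)
      (d := Y + 3 * w) (by omega)
      (by rintro x y ⟨-, h⟩ _ _; simp only [mem_coe, mem_RE_true] at h; omega)
      (by rintro x y ⟨-, h⟩ _ _; simp only [mem_coe, mem_RE_false] at h; omega)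
      k3 (by omega) k2.ge
    exact ⟨y1, y2, m1, m2, m3.mono (by rintro e ⟨⟨h4, -⟩, h5⟩; exact ⟨h4, h5⟩)⟩
  · right
    right
    obtain ⟨y1, y2, m1, m2, m3, -⟩ := sub_TB (a := X - 3 * w) (b := X + 3 * w) (c := Y - 3 * w)
      (d := Y - w) (by omega)
      (by rintro x y ⟨-, h⟩ _ _; simp only [mem_coe, mem_RE_false] at h; omega)
      (by rintro x y ⟨-, h⟩ _ _; simp only [mem_coe, mem_RE_true] at h; omega)
      k3.symm k2.le (by omega)
    exact ⟨y1, y2, m1, m2, m3.mono (by rintro e ⟨⟨h4, -⟩, h5⟩; exact ⟨h4, h5⟩)⟩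
  · right
    left
    obtain ⟨y1, y2, m1, m2, m3, -⟩ := sub_TB (a := X - 3 * w) (b := X + 3 * w) (c := Y + w)
      (d := Y + 3 * w) (by omega)
      (by rintro x y ⟨-, h⟩ _ _; simp only [mem_coe, mem_RE_false] at h; omega)
      (by rintro x y ⟨-, h⟩ _ _; simp only [mem_coe, mem_RE_true] at h; omega)
      k3 (by omega) k2.ge
    exact ⟨y1, y2, m1, m2, m3.mono (by rintro e ⟨⟨h4, -⟩, h5⟩; exact ⟨h4, h5⟩)⟩

theorem pr_LRc_le {q : ℝ} (h0 : 0 ≤ q) (h1 : q ≤ 1) (S : Finset Edg) (a b c d : ℤ) :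
    Pr (fun _ => q) S (LRc a b c d) ≤ hh q (b - a) (d - c) := by
  rw [← pr_LRc q (S := S ∪ LRE a b c d) Finset.subset_union_right]
  exact Pr_mono_set (okq h0 h1) Finset.subset_union_left (LRc_incr _ _ _ _ _)

theorem pr_TBc_le {q : ℝ} (h0 : 0 ≤ q) (h1 : q ≤ 1) (S : Finset Edg) (a b c d : ℤ) :
    Pr (fun _ => q) S (TBc a b c d) ≤ hh q (d - c) (b - a) := by
  rw [← pr_TBc q (S := S ∪ TBE a b c d) Finset.subset_union_right]
  exact Pr_mono_set (okq h0 h1) Finset.subset_union_left (TBc_incr _ _ _ _ _)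

theorem pr_An {q : ℝ} (h0 : 0 ≤ q) (h1 : q ≤ 1) (S : Finset Edg) (w X Y : ℤ) :
    Pr (fun _ => q) S (An w X Y) ≤ 4 * hh q (2 * w) (6 * w) := by
  have ok := okq h0 h1
  have i1 := Pr_or_le ok S (fun F => LRc (X + w) (X + 3 * w) (Y - 3 * w) (Y + 3 * w) F ∨
    LRc (X - 3 * w) (X - w) (Y - 3 * w) (Y + 3 * w) F)
    (fun F => TBc (X - 3 * w) (X + 3 * w) (Y + w) (Y + 3 * w) F ∨
      TBc (X - 3 * w) (X + 3 * w) (Y - 3 * w) (Y - w) F)
  have i2 := Pr_or_le ok S (LRc (X + w) (X + 3 * w) (Y - 3 * w) (Y + 3 * w))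
    (LRc (X - 3 * w) (X - w) (Y - 3 * w) (Y + 3 * w))
  have i3 := Pr_or_le ok S (TBc (X - 3 * w) (X + 3 * w) (Y + w) (Y + 3 * w))
    (TBc (X - 3 * w) (X + 3 * w) (Y - 3 * w) (Y - w))
  have j1 := pr_LRc_le h0 h1 S (X + w) (X + 3 * w) (Y - 3 * w) (Y + 3 * w)
  have j2 := pr_LRc_le h0 h1 S (X - 3 * w) (X - w) (Y - 3 * w) (Y + 3 * w)
  have j3 := pr_TBc_le h0 h1 S (X - 3 * w) (X + 3 * w) (Y + w) (Y + 3 * w)
  have j4 := pr_TBc_le h0 h1 S (X - 3 * w) (X + 3 * w) (Y - 3 * w) (Y - w)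
  rw [show X + 3 * w - (X + w) = 2 * w by ring,
    show Y + 3 * w - (Y - 3 * w) = 6 * w by ring] at j1
  rw [show X - w - (X - 3 * w) = 2 * w by ring,
    show Y + 3 * w - (Y - 3 * w) = 6 * w by ring] at j2
  rw [show Y + 3 * w - (Y + w) = 2 * w by ring,
    show X + 3 * w - (X - 3 * w) = 6 * w by ring] at j3
  rw [show Y - w - (Y - 3 * w) = 2 * w by ring,
    show X + 3 * w - (X - 3 * w) = 6 * w by ring] at j4
  have e : Pr (fun _ => q) S (An w X Y) = Pr (fun _ => q) S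
      (fun F => (LRc (X + w) (X + 3 * w) (Y - 3 * w) (Y + 3 * w) F ∨
      LRc (X - 3 * w) (X - w) (Y - 3 * w) (Y + 3 * w) F) ∨
      (TBc (X - 3 * w) (X + 3 * w) (Y + w) (Y + 3 * w) F ∨
      TBc (X - 3 * w) (X + 3 * w) (Y - 3 * w) (Y - w) F)) := rfl
  rw [e]
  linarith

/-- the number of boxes -/
theorem card_le (a b w : ℤ) (hw : 0 < w) (n : ℝ) (hn : 0 ≤ n) (h : ((b - a : ℤ) : ℝ) ≤ n) :
    ((Finset.Icc (a / w) (b / w)).card : ℝ) ≤ n / w + 2 := by
  have hw' : (0:ℝ) < w := by exact_mod_cast hw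
  rw [Int.card_Icc]
  rcases le_or_gt (b / w + 1 - a / w) 0 with h0 | h0
  · rw [Int.toNat_of_nonpos h0]
    have : 0 ≤ n / w := div_nonneg hn hw'.le
    push_cast
    linarith
  · have h1 : ((b / w + 1 - a / w).toNat : ℝ) = ((b / w + 1 - a / w : ℤ) : ℝ) := by
      exact_mod_cast Int.toNat_of_nonneg h0.le
    rw [h1]
    have h2 : w * (b / w) ≤ b := Int.mul_ediv_self_le hw.ne'
    have h3 : a < w * (a / w) + w := Int.lt_mul_ediv_self_add hw
    have h4 : w * (b / w + 1 - a / w) ≤ (b - a) + 2 * w := by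
      have : w * (b / w + 1 - a / w) = w * (b / w) + w - w * (a / w) := by ring
      rw [this]
      omega
    have h5 : (w:ℝ) * ((b / w + 1 - a / w : ℤ) : ℝ) ≤ ((b - a : ℤ) : ℝ) + 2 * w := by
      exact_mod_cast h4
    have h6 : (n / w + 2) * w = n + 2 * w := by field_simp
    have h7 : ((b / w + 1 - a / w : ℤ) : ℝ) * w ≤ (n / w + 2) * w := by
      rw [h6, mul_comm]
      linarith
    exact le_of_mul_le_mul_right h7 hw'

/-- a long path starts in one of the boxes -/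
theorem big_sub {a b u v : ℤ} {m : ℕ} {w : ℤ} (hw : 0 < w) (hm : 4 * w ≤ m) {F : Finset Edg}
    (hF : F ⊆ RE a b u v) (h : Big m F) :
    ∃ j ∈ (Finset.Icc (a / w) (b / w)) ×ˢ (Finset.Icc (u / w) (v / w)),
      An w (w * j.1) (w * j.2) F := by
  obtain ⟨x, y, hd, hr⟩ := h
  have hx : inR a b u v x := by
    rcases Relation.ReflTransGen.cases_head hr with h1 | ⟨z, ⟨e, he, hc⟩, -⟩
    · exfalso
      rw [h1] at hd
      unfold sd at hd
      simp only [sub_self, abs_zero, max_self] at hd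
      omega
    · have h2 := H973.mem_RE_ends (hF (Finset.mem_coe.1 he))
      rcases hc with ⟨h3, -⟩ | ⟨-, h3⟩
      · rw [← h3]; exact h2.1
      · rw [← h3]; exact h2.2
  obtain ⟨⟨h1, h2⟩, h3, h4⟩ := hx
  refine ⟨(x.1 / w, x.2 / w), ?_, ?_⟩
  · rw [Finset.mem_product, Finset.mem_Icc, Finset.mem_Icc]
    exact ⟨⟨Int.ediv_le_ediv hw h1, Int.ediv_le_ediv hw h2⟩,
      ⟨Int.ediv_le_ediv hw h3, Int.ediv_le_ediv hw h4⟩⟩
  · have k1 := Int.mul_ediv_self_le (x := x.1) (k := w) hw.ne'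
    have k2 := Int.lt_mul_ediv_self_add (x := x.1) hw
    have k3 := Int.mul_ediv_self_le (x := x.2) (k := w) hw.ne'
    have k4 := Int.lt_mul_ediv_self_add (x := x.2) hw
    exact an_of_reach hw k1 k2.le k3 k4.le (hm.trans hd) hr

theorem t_BIG : S_BIG := by
  classical
  obtain ⟨c0, C0, hc0, hC0, hwin⟩ := Pool.Agent.W424.NC.win_upper 3 (by norm_num)
  refine ⟨c0 / 4, max (256 * C0) (Real.exp (3 * (c0 / 4))), by positivity, by positivity, ?_⟩
  intro q a b u v n m hq0 hq1 hm hn hab huv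
  have h1 : q ≤ 1 := by linarith
  have ok := okq hq0 h1
  have hmr : (1:ℝ) ≤ m := by exact_mod_cast hm
  have hm0 : (0:ℝ) < m := by linarith
  obtain ⟨s, hs⟩ : ∃ s : ℝ, s = (1/2 - q)^(4/3 : ℝ) := ⟨_, rfl⟩
  have hs0 : 0 ≤ s := by rw [hs]; exact Real.rpow_nonneg (by linarith) _
  have hs1 : s ≤ 1 := by rw [hs]; exact Real.rpow_le_one (by linarith) (by linarith) (by norm_num)
  rw [← hs]
  have hge : 1 ≤ ((n + m) / m) ^ 2 := by
    have : 1 ≤ (n + m) / m := by rw [le_div_iff₀ hm0]; linarith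
    nlinarith
  rcases lt_or_ge m 4 with hm4 | hm4
  · have h2 : Pr (fun _ => q) (RE a b u v) (Big m) ≤ 1 := Pr_le_one ok _ _
    have hm3 : (m:ℝ) ≤ 3 := by
      have : m ≤ 3 := by omega
      exact_mod_cast this
    have h3 : 1 ≤ Real.exp (3 * (c0 / 4)) * Real.exp (-(c0 / 4 * (m * s))) := by
      rw [← Real.exp_add]
      apply Real.one_le_exp
      have h4 : (m:ℝ) * s ≤ 3 := by nlinarith
      have h5 : c0 / 4 * (m * s) ≤ c0 / 4 * 3 := mul_le_mul_of_nonneg_left h4 (by positivity)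
      linarith
    have h6 : Real.exp (3 * (c0 / 4)) ≤ max (256 * C0) (Real.exp (3 * (c0 / 4))) := le_max_right _ _
    calc Pr (fun _ => q) (RE a b u v) (Big m) ≤ 1 := h2
      _ ≤ Real.exp (3 * (c0 / 4)) * Real.exp (-(c0 / 4 * (m * s))) := h3
      _ = Real.exp (3 * (c0 / 4)) * 1 * Real.exp (-(c0 / 4 * (m * s))) := by ring
      _ ≤ max (256 * C0) (Real.exp (3 * (c0 / 4))) * ((n + m) / m) ^ 2 *
          Real.exp (-(c0 / 4 * (m * s))) := by gcongr
  · obtain ⟨w, hw⟩ : ∃ w : ℕ, w = m / 4 := ⟨_, rfl⟩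
    have hw1 : 1 ≤ w := by omega
    have hw4 : 4 * w ≤ m := by omega
    have hw8 : m ≤ 8 * w := by omega
    have hwr : (1:ℝ) ≤ w := by exact_mod_cast hw1
    have hw8r : (m:ℝ) ≤ 8 * w := by exact_mod_cast hw8
    have hwz : (0:ℤ) < w := by exact_mod_cast hw1
    have h2 : Pr (fun _ => q) (RE a b u v) (Big m) ≤ Pr (fun _ => q) (RE a b u v)
        (fun F => ∃ j ∈ (Finset.Icc (a / (w:ℤ)) (b / (w:ℤ))) ×ˢ
          (Finset.Icc (u / (w:ℤ)) (v / (w:ℤ))), An w (w * j.1) (w * j.2) F) := by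
      apply Pr_mono ok
      intro F hF hB
      exact big_sub hwz (by exact_mod_cast hw4) hF hB
    have h3 := Pr_exists_le ok (RE a b u v) ((Finset.Icc (a / (w:ℤ)) (b / (w:ℤ))) ×ˢ
          (Finset.Icc (u / (w:ℤ)) (v / (w:ℤ)))) (fun j => An w (w * j.1) (w * j.2))
    have h4 : ∑ j ∈ (Finset.Icc (a / (w:ℤ)) (b / (w:ℤ))) ×ˢ
          (Finset.Icc (u / (w:ℤ)) (v / (w:ℤ))), Pr (fun _ => q) (RE a b u v)
            (An w (w * j.1) (w * j.2)) ≤ ∑ j ∈ (Finset.Icc (a / (w:ℤ)) (b / (w:ℤ))) ×ˢ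
          (Finset.Icc (u / (w:ℤ)) (v / (w:ℤ))), 4 * hh q (2 * w) (6 * w) :=
      Finset.sum_le_sum fun j _ => pr_An hq0 h1 _ _ _ _
    rw [Finset.sum_const, Finset.card_product, nsmul_eq_mul] at h4
    have k1 := card_le a b w hwz n hn hab
    have k2 := card_le u v w hwz n hn huv
    have k3 : n / ((w:ℤ):ℝ) + 2 ≤ 8 * ((n + m) / m) := by
      rw [Int.cast_natCast]
      have e1 : n / (w:ℝ) ≤ 8 * (n / m) := by
        rw [div_le_iff₀ (by linarith)]
        have : 8 * (n / m) * w = n * (8 * w / m) := by ring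
        rw [this]
        have e2 : 1 ≤ 8 * w / (m:ℝ) := by rw [le_div_iff₀ hm0]; linarith
        nlinarith
      have e3 : 8 * ((n + m) / m) = 8 * (n / m) + 8 := by field_simp
      linarith
    have k4 : 0 ≤ 8 * ((n + m) / m) := by positivity
    have hh0 : 0 ≤ hh q (2 * w) (6 * w) := hh_nonneg hq0 h1 _ _
    have k5 : (((Finset.Icc (a / (w:ℤ)) (b / (w:ℤ))).card * (Finset.Icc (u / (w:ℤ))
        (v / (w:ℤ))).card : ℕ) : ℝ) ≤ 64 * ((n + m) / m) ^ 2 := by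
      push_cast
      calc ((Finset.Icc (a / (w:ℤ)) (b / (w:ℤ))).card : ℝ) * ((Finset.Icc (u / (w:ℤ))
            (v / (w:ℤ))).card : ℝ) ≤ (8 * ((n + m) / m)) * (8 * ((n + m) / m)) :=
            mul_le_mul (k1.trans k3) (k2.trans k3) (by positivity) k4
        _ = _ := by ring
    have h5 := hwin q hq0 hq1 (2 * w) (6 * w) (by omega) (by omega) (by omega)
    rw [← hs] at h5
    push_cast at h5
    have h6 : C0 * Real.exp (-(c0 * (2 * w * s))) ≤ C0 * Real.exp (-(c0 / 4 * (m * s))) := by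
      apply mul_le_mul_of_nonneg_left _ hC0.le
      apply Real.exp_le_exp.mpr
      have e1 : c0 / 4 * (m * s) ≤ c0 / 4 * ((8 * w) * s) := by gcongr
      linarith
    have h7 : hh q (2 * w) (6 * w) ≤ C0 * Real.exp (-(c0 / 4 * (m * s))) := by
      refine le_trans ?_ h6
      exact_mod_cast h5
    calc Pr (fun _ => q) (RE a b u v) (Big m) ≤ _ := h2
      _ ≤ _ := h3
      _ ≤ _ := h4
      _ ≤ (64 * ((n + m) / m) ^ 2) * (4 * (C0 * Real.exp (-(c0 / 4 * (m * s))))) := by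
          apply mul_le_mul k5 _ (by positivity) (by positivity)
          linarith
      _ = (256 * C0) * ((n + m) / m) ^ 2 * Real.exp (-(c0 / 4 * (m * s))) := by ring
      _ ≤ _ := by
          gcongr
          exact le_max_left _ _

end Pool.Agent.Zk80.CO
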